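import Pool.Agent.H698ST.Broom2
import Pool.Agent.H698ST.Far

set_option autoImplicit false

/-!
# MP_fcea8e_co: the equality of the tournament threshold and the chromatic threshold for all
oriented stars and for out-stars (in-stars) with further vertices attached to the leaves

* every oriented star with `d` out-leaves and `e` in-leaves, `k = d + e` edges: both thresholds
  are `2 k` if `d = 0` or `e = 0`, and `2 k - 1` if `d, e ≥ 1`;
* the tree which consists of an out-star with `d` leaves and `m` further vertices, each with
  an arc to one of the leaves (in any distribution), and its reversal, if `d ≥ 7 m` or if `m = 1`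
  and `d ≥ 4`: both thresholds are `2 d`;
* the tree which consists of an out-star with `d ≥ 2` leaves and one further vertex to which
  there is an arc from one of the leaves, and its reversal: both thresholds are `2 d`.
-/

namespace Pool.Agent.Results.MP_fcea8e_co.StarsAndNearStars

open Pool.Agent.H698ST

/-- `t(T) = c(T) = N`: the number `N` is the least `n` such that all tournaments with `n` vertices
contain `T`, and also the least `n` such that all finite oriented graphs with chromatic number `n`
contain `T`. -/
def Thresholds {W : Type} (T : W → W → Prop) (N : ℕ) : Prop :=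
  IsLeast (TSet T) N ∧ IsLeast (CSet T) N

theorem reverse {W : Type} {T : W → W → Prop} {N : ℕ} (h : Thresholds T N) :
    Thresholds (fun a b => T b a) N := by
  have key : ∀ S : W → W → Prop, TSet S ⊆ TSet (fun a b => S b a) := by
    intro S n hn D hD
    obtain ⟨f, hf, h⟩ := hn (fun a b => D b a)
      ⟨fun u v huv => hD.1 v u huv, fun u v huv => hD.2 v u (fun h => huv h.symm)⟩
    exact ⟨f, hf, fun a b hab => h b a hab⟩
  have key2 : ∀ S : W → W → Prop, CSet S ⊆ CSet (fun a b => S b a) := by
    intro S n hn V _ D hD hchi
    have h1 : SimpleGraph.fromRel (fun a b => D b a) = SimpleGraph.fromRel D := by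
      ext u v
      simp only [SimpleGraph.fromRel_adj]
      tauto
    obtain ⟨f, hf, h⟩ := hn V (fun a b => D b a) (fun u v huv => hD v u huv) (by rw [h1]; exact hchi)
    exact ⟨f, hf, fun a b hab => h b a hab⟩
  have e1 : TSet (fun a b => T b a) = TSet T := Set.Subset.antisymm (key _) (key T)
  have e2 : CSet (fun a b => T b a) = CSet T := Set.Subset.antisymm (key2 _) (key2 T)
  unfold Thresholds
  rw [e1, e2]
  exact h

/-- **Naia's question for oriented stars and near-stars.** -/
theorem result :
    (∀ d e : ℕ, 1 ≤ d + e →
      Thresholds (star d e) (if d = 0 ∨ e = 0 then 2 * (d + e) else 2 * (d + e) - 1)) ∧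
    (∀ (d m : ℕ) (g : Fin m → Fin d), 1 ≤ d → (7 * m ≤ d ∨ (m = 1 ∧ 4 ≤ d)) →
      Thresholds (nearStar d m g) (2 * d) ∧
        Thresholds (fun a b => nearStar d m g b a) (2 * d)) ∧
    (∀ (d : ℕ) (i : Fin d), 2 ≤ d →
      Thresholds (farStar d i) (2 * d) ∧ Thresholds (fun a b => farStar d i b a) (2 * d)) := by
  refine ⟨?_, ?_, ?_⟩
  · intro d e hde
    have h := star_result d e
    have h2 : (2 * d - 1) + (2 * e - 1) + 1 =
        (if d = 0 ∨ e = 0 then 2 * (d + e) else 2 * (d + e) - 1) := by
      split_ifs with h0
      · omega
      · omega
    rw [h2] at h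
    exact h
  · intro d m g hd hm
    have h : Thresholds (nearStar d m g) (2 * d) := by
      apply nearStar_result d m g
      · rcases hm with hm | hm <;> omega
      · rcases hm with hm | ⟨rfl, hm⟩
        · rcases Nat.eq_zero_or_pos m with h0 | h0
          · exact Or.inr h0
          · left
            nlinarith [Nat.mul_le_mul hm hd, Nat.mul_le_mul_right d hm, Nat.mul_le_mul_left m hm]
        · left
          nlinarith
    exact ⟨h, reverse h⟩
  · intro d i hd
    have h : Thresholds (farStar d i) (2 * d) := farStar_result d i hd
    exact ⟨h, reverse h⟩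

end Pool.Agent.Results.MP_fcea8e_co.StarsAndNearStars
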