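import Pool.Agent.H950_Lev.Main

/-!
# Oriented trees of bounded height in digraphs of large chromatic number

Let `T` be an oriented tree with `k ≥ 1` arcs whose vertices can be put on the levels `0, …, h` so that
every arc goes from a level to the next one. Then every digraph (pairs of opposite arcs are allowed) which
is not `h (4 k - 3)`-colourable contains `T`. So `c(T) ≤ h (4 k - 3) + 1 < 4 h t(T)`, where `t(T)` and
`c(T)` are the numbers of the problem.

Proof. We look for sets `V_0, …, V_h` of vertices of `D` such that every vertex of `V_i` has at least `k`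
out-neighbours in `V_(i+1)`, if `i < h`, and at least `k` in-neighbours in `V_(i-1)`, if `i > 0`; if they
are not empty, then `T` is found greedily. If they do not exist, then the pairs `(v, i)`, `v ∈ V(D)`,
`i ≤ h`, can be ordered so that for every pair `(v, i)` one of the two conditions fails for the later
pairs. For `i = 0` it is the condition on out-neighbours which fails, and for `i = h` the condition on
in-neighbours. So for every vertex `v` there is an `i < h` such that the first condition fails for
`(v, i)` and the second one for `(v, i + 1)`. Let `X_i` be the set of the vertices with this `i`. For an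
arc `u → v` inside of `X_i` either `(u, i)` comes before `(v, i + 1)`, and for every `u` there are less
than `k` such arcs, or `(v, i + 1)` comes before `(u, i)`, and for every `v` there are less than `k` such
arcs. Hence every subset `Y` of `X_i` spans at most `2 (k - 1) |Y|` arcs, and `X_i` can be coloured with
`4 (k - 1) + 1` colours.
-/

set_option autoImplicit false

namespace Pool.Agent.Results.MP_fcea8e_co.TreesOfBoundedHeight

/-- `G` contains `T`: an injective map of the vertices sends arcs to arcs -/
def Contains {W V : Type} (G : Digraph V) (T : Digraph W) : Prop :=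
  ∃ f : W → V, Function.Injective f ∧ ∀ a b, T.Adj a b → G.Adj (f a) (f b)

/-- `t(T)`: the least `n` such that all tournaments with `n` vertices contain `T` -/
noncomputable def tournamentNumber {W : Type} (T : Digraph W) : ℕ :=
  sInf {n : ℕ | ∀ G : Digraph (Fin n),
    (∀ a b, G.Adj a b → ¬ G.Adj b a) → (∀ a b, a ≠ b → G.Adj a b ∨ G.Adj b a) → Contains G T}

/-- `c(T)`: the least `n` such that all oriented graphs with chromatic number at least `n`
contain `T` -/
noncomputable def chromaticThreshold {W : Type} (T : Digraph W) : ℕ :=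
  sInf {n : ℕ | ∀ (m : ℕ) (G : Digraph (Fin m)),
    (∀ a b, G.Adj a b → ¬ G.Adj b a) →
    (n : ℕ∞) ≤ (SimpleGraph.fromRel G.Adj).chromaticNumber → Contains G T}

/-- The general form: every digraph that is not `h (4 k - 3)`-colourable contains `T`. -/
theorem digraphs (k h : ℕ) (hk : 1 ≤ k) (T : Digraph (Fin (k + 1)))
    (hT : (SimpleGraph.fromRel T.Adj).IsTree)
    (lev : Fin (k + 1) → ℕ) (hlev : ∀ a b, T.Adj a b → lev b = lev a + 1) (hh : ∀ a, lev a ≤ h)
    (V : Type) [Fintype V] (G : Digraph V)
    (hG : ¬ (SimpleGraph.fromRel G.Adj).Colorable (h * (4 * k - 3))) : Contains G T := by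
  classical
  exact Pool.Agent.H950_Lev.main G.Adj k h hk hG T.Adj hT lev hlev hh

/-- **Oriented trees of bounded height.** Let `T` be an oriented tree with `k ≥ 1` arcs and with levels
`0, …, h` such that every arc goes from a level to the next one. Then
`c(T) ≤ h (4 k - 3) + 1 < 4 h t(T)`. -/
theorem result (k h : ℕ) (hk : 1 ≤ k) (T : Digraph (Fin (k + 1)))
    (hT : (SimpleGraph.fromRel T.Adj).IsTree)
    (lev : Fin (k + 1) → ℕ) (hlev : ∀ a b, T.Adj a b → lev b = lev a + 1)
    (hh : ∀ a, lev a ≤ h) :
    chromaticThreshold T ≤ h * (4 * k - 3) + 1 ∧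
      h * (4 * k - 3) + 1 < 4 * h * tournamentNumber T := by
  have hmem : ∀ (m : ℕ) (G : Digraph (Fin m)),
      ((h * (4 * k - 3) + 1 : ℕ) : ℕ∞) ≤ (SimpleGraph.fromRel G.Adj).chromaticNumber →
      Contains G T := by
    intro m G hm
    refine digraphs k h hk T hT lev hlev hh _ G ?_
    intro hc
    have h1 := hm.trans hc.chromaticNumber_le
    have h2 : h * (4 * k - 3) + 1 ≤ h * (4 * k - 3) := by exact_mod_cast h1
    omega
  refine ⟨Nat.sInf_le (fun m G _ hm => hmem m G hm), ?_⟩
  -- `h` is positive
  have hh1 : 1 ≤ h := by
    obtain ⟨a, b, hab⟩ : ∃ a b, T.Adj a b := by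
      by_contra hcon
      push Not at hcon
      have h0 : (0 : Fin (k + 1)) ≠ Fin.last k := by
        intro he
        have := congrArg Fin.val he
        simp at this
        omega
      have hw : ∀ x y : Fin (k + 1), (SimpleGraph.fromRel T.Adj).Walk x y → x = y := by
        intro x y w
        induction w with
        | nil => rfl
        | cons hadj _ _ =>
          exfalso
          rw [SimpleGraph.fromRel_adj] at hadj
          rcases hadj.2 with h1 | h1
          · exact hcon _ _ h1
          · exact hcon _ _ h1
      obtain ⟨w⟩ := hT.connected.preconnected (0 : Fin (k + 1)) (Fin.last k)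
      exact h0 (hw _ _ w)
    have h1 := hlev a b hab
    have h2 := hh b
    omega
  have hne : (h * (4 * k - 3) + 1) ∈ {n : ℕ | ∀ G : Digraph (Fin n),
      (∀ a b, G.Adj a b → ¬ G.Adj b a) → (∀ a b, a ≠ b → G.Adj a b ∨ G.Adj b a) →
      Contains G T} := by
    intro G _ hG
    apply hmem
    have htop : SimpleGraph.fromRel G.Adj = ⊤ := by
      ext a b
      rw [SimpleGraph.fromRel_adj, SimpleGraph.top_adj]
      exact ⟨fun h => h.1, fun h => ⟨h, hG a b h⟩⟩
    rw [htop, SimpleGraph.chromaticNumber_top, Fintype.card_fin]
  have hsInf := Nat.sInf_mem ⟨_, hne⟩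
  have hge : k + 1 ≤ tournamentNumber T := by
    let G : Digraph (Fin (tournamentNumber T)) := ⟨fun a b => a < b⟩
    obtain ⟨f, hf, _⟩ := hsInf G (fun a b h1 h2 => lt_asymm h1 h2)
      (fun a b hab => lt_or_gt_of_ne hab)
    have h5 := Fintype.card_le_of_injective f hf
    rw [Fintype.card_fin, Fintype.card_fin] at h5
    exact h5
  have h3 : h * (4 * k - 3) + 1 ≤ 4 * h * k := by
    obtain ⟨m, rfl⟩ : ∃ m, k = m + 1 := ⟨k - 1, by omega⟩
    have e1 : 4 * (m + 1) - 3 = 4 * m + 1 := by omega
    rw [e1]
    nlinarith
  have h4 : 4 * h * (k + 1) ≤ 4 * h * tournamentNumber T := Nat.mul_le_mul_left _ hge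
  nlinarith

end Pool.Agent.Results.MP_fcea8e_co.TreesOfBoundedHeight
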